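import Pool.Agent.H462.T1.C
import Pool.Graph.R_pool_sql_team_seeded_1acbe0a2.Y696.XL.Rank

/-!
# The cubic extensions `K(∛D)`: the final statement
-/

set_option autoImplicit false
set_option linter.unusedSectionVars false

open scoped Classical

namespace Pool.Agent.H462.T1

open NumberField IsDedekindDomain WeierstrassCurve
open Pool.Agent.Y692.QS (Ei)
open Pool.Agent.Y703.CT (ClsE)
open Pool.Agent.Y696.CTK Pool.Agent.Y696.CTE
open Pool.Agent.XL6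
open Pool.Agent.TH841.NF.D (Sha)

section
variable {K : Type} [Field K] [NumberField K] [IsCyclotomicExtension {3} ℚ K]

/-- the corank of the Laplacian matrix of the cubic residue symbols is `r + 1` -/
def Cork (D : 𝓞 K) (r : ℕ) : Prop :=
  ∃ (ω : 𝓞 K) (n : ℕ) (π : Fin n → 𝓞 K) (χ : Fin n → Fin n → ZMod 3),
    ω ^ 2 + ω + 1 = 0 ∧ IsFact ω D n π χ ∧ nL χ = 3 ^ (r + 1)

lemma cork_iff {D : 𝓞 K} (hD : ClsK D) (r : ℕ) :
    Cork D r ↔ (SelK (D : K)).ncard = 3 ^ (r + 1) := by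
  obtain ⟨-, h2, -⟩ := finalXL K
  obtain ⟨⟨h3, h4⟩, -⟩ := h2 D hD
  constructor
  · rintro ⟨ω, n, π, χ, h5, h6, h7⟩
    rw [h4 ω n π χ h5 h6, h7]
  · intro h
    obtain ⟨ω, n, π, χ, h5, h6⟩ := h3
    exact ⟨ω, n, π, χ, h5, h6, by rw [← h4 ω n π χ h5 h6, h]⟩

lemma cork_unique {D : 𝓞 K} (hD : ClsK D) : ∃! r, Cork D r := by
  obtain ⟨-, h2, -⟩ := finalXL K
  obtain ⟨-, ⟨r, h3, -⟩, -⟩ := h2 D hD
  refine ⟨r, (cork_iff hD r).2 h3, fun s hs => ?_⟩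
  have h4 := (cork_iff hD s).1 hs
  rw [h3] at h4
  have := Nat.pow_right_injective (le_refl 2 |>.trans (by norm_num)) h4
  omega

lemma cork_zero {D : 𝓞 K} (hD : ClsK D) : Cork D 0 ↔ Tri D := by
  rw [cork_iff hD 0]
  obtain ⟨-, h2, -⟩ := finalXL K
  simpa using (h2 D hD).2.2

/-- for a fixed `D` -/
theorem one {D : 𝓞 K} (hD : ClsK D) {F : Type} [Field F] [NumberField F] [Algebra K F] {θ : F}
    (hd : Module.finrank K F = 3) (hθ : θ ^ 3 = algebraMap K F D) :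
    LE F ∧ Module.Finite ℤ (ED (1 : F)).toAffine.Point ∧
    (∀ r, Cork D r → Module.finrank ℤ (ED (1 : F)).toAffine.Point ≤ 4 * r) ∧
    (Cork D 0 → RZ F ∧ (D ≠ -2 → Nat.card (ED (1 : F)).toAffine.Point = 9)) := by
  have hl := law_F hD hd hθ
  obtain ⟨r, hr, -⟩ := cork_unique hD
  refine ⟨hl.le, (rank_F hD ((cork_iff hD r).1 hr) hd hθ).1,
    fun s hs => (rank_F hD ((cork_iff hD s).1 hs) hd hθ).2, fun h0 => ?_⟩
  have h1 := hl.rz ((cork_zero hD).1 h0)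
  exact ⟨h1, fun h => nine hD h hd hθ h1⟩

end

section
variable (K : Type) [Field K] [NumberField K] [IsCyclotomicExtension {3} ℚ K]

/-- the law of the coranks -/
theorem law (r : ℕ) : Filter.Tendsto (fun X : ℕ =>
    (({D ∈ up K X | Cork D r}.ncard : ℕ) : ℝ) / ((up K X).ncard : ℝ)) Filter.atTop
      (nhds (prob r)) := by
  obtain ⟨-, -, h3, -⟩ := finalXL K
  refine (h3 r).congr fun X => ?_
  congr 3
  ext D
  constructor
  · rintro ⟨h1, h2, h3⟩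
    exact ⟨⟨h1, h2⟩, (cork_iff h2 r).2 h3⟩
  · rintro ⟨⟨h1, h2⟩, h3⟩
    exact ⟨h1, h2, (cork_iff h2 r).1 h3⟩

/-- the share of the small coranks -/
theorem share' (r : ℕ) : Filter.Tendsto (fun X : ℕ =>
    (({D ∈ up K X | ∃ s ≤ r, Cork D s}.ncard : ℕ) : ℝ) / ((up K X).ncard : ℝ)) Filter.atTop
      (nhds (∑ s ∈ Finset.range (r + 1), prob s)) := by
  refine (share K r).congr fun X => ?_
  congr 3
  ext D
  constructor
  · rintro ⟨h1, s, h2, h3⟩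
    exact ⟨h1, s, h2, (cork_iff h1.2 s).2 h3⟩
  · rintro ⟨h1, s, h2, h3⟩
    exact ⟨h1, s, h2, (cork_iff h1.2 s).1 h3⟩

/-- the average of the function `3 ^ r` -/
theorem avg_three (ε : ℝ) (hε : 0 < ε) : ∃ X₀ : ℕ, ∀ X : ℕ, X₀ ≤ X →
    ∀ f : 𝓞 K → ℝ, (∀ D r, ClsK D → Cork D r → f D ≤ 3 ^ r) →
      ∑ᶠ D ∈ up K X, f D ≤ (2 + ε) * ((up K X).ncard : ℝ) := by
  obtain ⟨-, h2, -, -, h5, -⟩ := finalXL K
  have h6 := (tendsto_order.1 h5).2 (6 + 3 * ε) (by linarith)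
  obtain ⟨X₀, h7⟩ := Filter.eventually_atTop.1 h6
  refine ⟨X₀, fun X hX f hf => ?_⟩
  have h8 := h7 X hX
  have hfin := up_finite K X
  change (∑ᶠ D ∈ up K X, ((SelK (D : K)).ncard : ℝ)) / ((up K X).ncard : ℝ) < _ at h8
  rcases Nat.eq_zero_or_pos (up K X).ncard with h0 | h0
  · have h9 : up K X = ∅ := (Set.ncard_eq_zero hfin).1 h0
    rw [h9, finsum_mem_empty, Set.ncard_empty, Nat.cast_zero, mul_zero]
  · have h9 : (0 : ℝ) < ((up K X).ncard : ℝ) := by exact_mod_cast h0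
    rw [div_lt_iff₀ h9] at h8
    have h10 : ∑ᶠ D ∈ up K X, f D ≤
        (1 / 3) * ∑ᶠ D ∈ up K X, ((SelK (D : K)).ncard : ℝ) := by
      rw [finsum_mem_eq_finite_toFinset_sum _ hfin, finsum_mem_eq_finite_toFinset_sum _ hfin,
        Finset.mul_sum]
      refine Finset.sum_le_sum fun D hD => ?_
      rw [Set.Finite.mem_toFinset] at hD
      obtain ⟨-, ⟨r, h11, -⟩, -⟩ := h2 D hD.2
      refine (hf D r hD.2 ((cork_iff hD.2 r).2 h11)).trans (le_of_eq ?_)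
      rw [h11, Nat.cast_pow, pow_succ]
      push_cast
      ring
    linarith

/-- the average of the function `r` -/
theorem avg_rank : ∃ X₀ : ℕ, ∀ X : ℕ, X₀ ≤ X →
    ∀ g : 𝓞 K → ℕ, (∀ D r, ClsK D → Cork D r → g D ≤ 4 * r) →
      ∑ᶠ D ∈ up K X, (g D : ℝ) ≤ 1.618 * ((up K X).ncard : ℝ) := by
  obtain ⟨⟨j, hj⟩, -⟩ := Pool.Agent.Y455.CTK.jex K
  -- the function equal to twice the corank
  let q : 𝓞 K → ℕ := fun D => if h : ∃ r, Cork D r then 2 * h.choose else 0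
  have hq : ∀ D r, ClsK D → Cork D r → q D = 2 * r := by
    intro D r hD hr
    have h : ∃ r, Cork D r := ⟨r, hr⟩
    have e : q D = 2 * h.choose := dif_pos h
    rw [e, (cork_unique hD).unique h.choose_spec hr]
  obtain ⟨X₀, h⟩ := Filter.eventually_atTop.1 (Pool.Agent.Y703.XL.rankK j
    Pool.Agent.Y703.XL.t_LAW Pool.Agent.Y703.XL.t_C9 q (fun D hD r hr => by
      have h1 : ClsK (j D) := (Pool.Agent.Y696.XK.cls_iff j hj D).2 hD
      refine (hq _ r h1 ((cork_iff h1 r).2 ?_)).le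
      rw [selK_nS j hj hD, hr]) hj ClsK (Pool.Agent.Y696.XK.cls_iff j hj))
  refine ⟨X₀, fun X hX g hg => ?_⟩
  have h1 : ∑ᶠ D ∈ up K X, (q D : ℝ) ≤ 0.809 * ((up K X).ncard : ℝ) := h X hX
  have hfin := up_finite K X
  have h2 : ∑ᶠ D ∈ up K X, (g D : ℝ) ≤ 2 * ∑ᶠ D ∈ up K X, (q D : ℝ) := by
    rw [finsum_mem_eq_finite_toFinset_sum _ hfin, finsum_mem_eq_finite_toFinset_sum _ hfin,
      Finset.mul_sum]
    refine Finset.sum_le_sum fun D hD => ?_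
    rw [Set.Finite.mem_toFinset] at hD
    obtain ⟨r, hr, -⟩ := cork_unique hD.2
    rw [hq D r hD.2 hr]
    have := hg D r hD.2 hr
    have h3 : (g D : ℝ) ≤ ((4 * r : ℕ) : ℝ) := by exact_mod_cast this
    refine h3.trans (le_of_eq ?_)
    push_cast
    ring
  linarith

end

/-- **The final statement.** -/
theorem finalT1 (K : Type) [Field K] [NumberField K] [IsCyclotomicExtension {3} ℚ K] :
    (∃ c : ℝ, 0 < c ∧ ∃ X₀ : ℕ, ∀ X : ℕ, X₀ ≤ X → c * X ≤ ((up K X).ncard : ℝ)) ∧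
    (∀ D : 𝓞 K, ClsK D → (∃! r, Cork D r) ∧
      (∃ (F : Type) (_ : Field F) (_ : NumberField F) (_ : Algebra K F) (θ : F),
        Module.finrank K F = 3 ∧ θ ^ 3 = algebraMap K F D) ∧
      ∀ (F : Type) [Field F] [NumberField F] [Algebra K F] (θ : F),
        Module.finrank K F = 3 → θ ^ 3 = algebraMap K F D →
        LE F ∧ Module.Finite ℤ (ED (1 : F)).toAffine.Point ∧
        (∀ r, Cork D r → Module.finrank ℤ (ED (1 : F)).toAffine.Point ≤ 4 * r) ∧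
        (Cork D 0 → RZ F ∧ (D ≠ -2 → Nat.card (ED (1 : F)).toAffine.Point = 9))) ∧
    (∀ r : ℕ, Filter.Tendsto (fun X : ℕ =>
      (({D ∈ up K X | Cork D r}.ncard : ℕ) : ℝ) / ((up K X).ncard : ℝ)) Filter.atTop
      (nhds (prob r))) ∧
    (0.639 < prob 0 ∧ prob 0 < 0.6391 ∧ HasSum prob 1) ∧
    (∀ r : ℕ, 1 - 1.5 / 3 ^ ((r + 1) * (r + 2) / 2) ≤ ∑ s ∈ Finset.range (r + 1), prob s) := by
  obtain ⟨h1, -, -, h4, -⟩ := finalXL K
  obtain ⟨-, k2, -⟩ := Pool.Agent.Y696.CTE.final9 K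
  refine ⟨h1, fun D hD => ⟨cork_unique hD, (k2 D hD).1, fun F _ _ _ θ hd hθ => one hD hd hθ⟩,
    law K, h4, fun r => ?_⟩
  have := tail_le r
  linarith

end Pool.Agent.H462.T1
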