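import Pool.Graph.R_seed8.Y696.XL.Res
import Pool.Graph.R_seed8.Y696.CTE.Nine

/-!
# The ranks of the two twists `D` and `D²` over `K`
-/

set_option autoImplicit false
set_option linter.unusedSectionVars false

open scoped Classical

namespace Pool.Agent.H462.T1

open NumberField IsDedekindDomain WeierstrassCurve
open Pool.Agent.Y692.QS (Ei w toC)
open Pool.Agent.Y703.CT
open Pool.Agent.Y715.T.Gi Pool.Agent.Y715.T.Nr Pool.Agent.Y715.T.Df Pool.Agent.Y715.T.Ell
open Pool.Agent.TH841.SH.D (Gal Coch IsCoc LocTriv cob)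
open Pool.Agent.Y696.CTK Pool.Agent.Y696.CTE
open Pool.Agent.Y155.CT (a_mul a_cont AG AG_fg)
open Pool.Agent.Y715.T.Rec (cs)
open Pool.Agent.Y350.CTK.Mw (act_act act_inj)
open Pool.Agent.XL6

section
variable {K : Type} [Field K] [NumberField K] {j : Ei ≃+* 𝓞 K} {D : Ei}
  {e : AlgebraicClosure K ≃+* QB} {i₀ : QB} {hi : i₀ ^ 2 + i₀ + 1 = 0} {u : QB}
  {a : GK i₀ → ZMod 3}
  {Ψ : Pool.Agent.TH841.SH.D.Pt (ED (j D : K)) (AlgebraicClosure K) ≃+ Pt QB}
  {g : Pool.Agent.TH841.SH.D.Gal K ≃* GK i₀}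

/-- the group of points over `K` is finitely generated -/
theorem fg_K (hD : D ≠ 0) (hTr : TrfData K j D e i₀ hi u a Ψ g) :
    Module.Finite ℤ (ED (j D : K)).toAffine.Point := by
  obtain ⟨hTw, he, hgc, hgsc, hge, hΨ, hact⟩ := hTr
  have hfg := AG_fg (hi := hi) (a_mul hD hTw) (a_cont hD hTw)
  let φ : K →ₐ[K] AlgebraicClosure K := Algebra.ofId K (AlgebraicClosure K)
  let em : Pool.Agent.TH841.SH.D.Pt (ED (j D : K)) K →+ Pt QB :=
    Ψ.toAddMonoidHom.comp (Pool.Agent.TH841.SH.D.act (ED (j D : K)) φ)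
  have hinj : Function.Injective em := Ψ.injective.comp (act_inj _ φ)
  have hfix : ∀ (P : Pool.Agent.TH841.SH.D.Pt (ED (j D : K)) K) (σ : GK i₀),
      Pool.Agent.Y703.CT.act hi a σ (em P) = em P := by
    intro P σ
    have h1 := hact (g.symm σ) (Pool.Agent.TH841.SH.D.act (ED (j D : K)) φ P)
    rw [g.apply_symm_apply] at h1
    refine h1.symm.trans ?_
    rw [act_act]
    have h2 : ((g.symm σ).toAlgHom).comp φ = φ := by
      refine AlgHom.ext fun x => ?_
      exact (g.symm σ).commutes x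
    rw [h2]
    rfl
  let em' : Pool.Agent.TH841.SH.D.Pt (ED (j D : K)) K →+ AG hi a :=
    { toFun := fun P => ⟨em P, fun σ => hfix P σ⟩
      map_zero' := Subtype.ext (map_zero em)
      map_add' := fun P Q => Subtype.ext (map_add em P Q) }
  have h1 : Module.Finite ℤ (Pool.Agent.TH841.SH.D.Pt (ED (j D : K)) K) :=
    Module.Finite.of_injective em'.toIntLinearMap fun P Q h => hinj (congrArg Subtype.val h)
  exact h1

variable {J : Type} [Fintype J] [Nonempty J] {π : J → Ei} {ε : J → ZMod 3}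

/-- the Selmer group and the rank -/
theorem main_e (P : Parts) (hD : Dt π ε)
    (h9 : ¬ (9 : ℤ) ∣ Pool.Agent.Y692.QS.nr (pD π ε) - 1) (j : Ei ≃+* 𝓞 K) :
    (SelK (j (pD π ε) : K)).ncard = (KerV π ε).ncard ∧
    Module.Finite ℤ (ED (j (pD π ε) : K)).toAffine.Point ∧
    ∀ r : ℕ, (KerV π ε).ncard ≤ 3 ^ (r + 1) →
      Module.finrank ℤ (ED (j (pD π ε) : K)).toAffine.Point ≤ 2 * r := by
  have hne : pD π ε ≠ 0 := Pool.Agent.Y153.CTRAM.ne_zero_of hD
  obtain ⟨e, i₀, hi, u, a, Ψ, g, hdata⟩ := P.trf K j _ hne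
  have hT := hdata.1
  have h1 : (SelH hi a).ncard = (KerV π ε).ncard := sel_card hD h9 hT
  refine ⟨(selK_card hne hdata).trans h1, fg_K hne hdata, fun r hr => ?_⟩
  have hpos : (KerV π ε).ncard ≠ 0 := by
    have h0 : (0 : J → ZMod 3) ∈ KerV π ε := fun j => by simp
    exact Set.ncard_ne_zero_of_mem h0 (Set.toFinite _)
  have hfin : (SelH hi a).Finite := Set.finite_of_ncard_ne_zero (by rw [h1]; exact hpos)
  exact (rk_le hne hdata).trans (rank_le (a_mul hne hT) (a_cont hne hT) (a_ne hD hT) hfin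
    (by rw [h1]; exact hr))

lemma kerV_neg : KerV π (fun _ => -1) = KerV π (fun _ => 1) := by
  ext v
  refine forall_congr' fun j => ?_
  have e : ∑ i, (-1 : ZMod 3) * cs (π j) (π i) * (v i - v j) =
      -∑ i, (1 : ZMod 3) * cs (π j) (π i) * (v i - v j) := by
    rw [← Finset.sum_neg_distrib]
    exact Finset.sum_congr rfl fun i _ => by ring
  rw [e, neg_eq_zero]

end

/-- **both twists** -/
theorem two_ranks {K : Type} [Field K] [NumberField K] [IsCyclotomicExtension {3} ℚ K] {D : 𝓞 K}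
    (hD : ClsK D) {r : ℕ} (hr : (SelK (D : K)).ncard = 3 ^ (r + 1)) :
    (Module.Finite ℤ (ED (D : K)).toAffine.Point ∧
      Module.Finite ℤ (ED ((D ^ 2 : 𝓞 K) : K)).toAffine.Point) ∧
    Module.finrank ℤ (ED (D : K)).toAffine.Point ≤ 2 * r ∧
      Module.finrank ℤ (ED ((D ^ 2 : 𝓞 K) : K)).toAffine.Point ≤ 2 * r := by
  obtain ⟨⟨j, hj⟩, -⟩ := Pool.Agent.Y455.CTK.jex K
  obtain ⟨z, rfl⟩ := j.surjective D
  have hz : ClsE z := by
    refine ⟨?_, ?_, ?_⟩
    · have e1 := three_dvd_symm j hD.1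
      rwa [RingEquiv.symm_apply_apply] at e1
    · intro x hx
      exact (MulEquiv.isUnit_map j).1 (hD.2.1 (j x) (by rw [← map_mul]; exact map_dvd j hx))
    · rw [← hj]
      exact hD.2.2
  obtain ⟨n, π, hdt, rfl, -⟩ := ge2 z hz
  obtain ⟨a1, a2, a3⟩ := main_e (K := K) Pool.Agent.Y696.CTK.parts hdt hz.2.2 j
  obtain ⟨b1, b2, b3⟩ := main_e (K := K) Pool.Agent.Y696.CTK.parts (dt_neg hdt)
    (nine_neg hdt hz.2.2) j
  rw [a1] at hr
  rw [pD_two, map_pow] at b2 b3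
  exact ⟨⟨a2, b2⟩, a3 r hr.le, b3 r (by rw [kerV_neg]; exact hr.le)⟩

end Pool.Agent.H462.T1
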