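import Pool.Graph.R_seed8.Y710.CTE.MwfA
import Pool.Graph.R_seed8.Y700.VC

/-!
# The rank over a cubic Kummer extension
-/

set_option autoImplicit false
set_option linter.unusedSectionVars false

namespace Pool.Agent.H462.T1

open WeierstrassCurve Module Pool.Agent.Y715.T.Ell Pool.Agent.Y710.CTE
open scoped Classical Pointwise

/-- the rank of a group with a decomposition up to multiplication by three -/
theorem rank_group {G G0 G1 G2 : Type} [AddCommGroup G] [AddCommGroup G0] [AddCommGroup G1]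
    [AddCommGroup G2] [Module.Finite ℤ G0] [Module.Finite ℤ G1] [Module.Finite ℤ G2]
    (f0 : G0 →+ G) (f1 : G1 →+ G) (f2 : G2 →+ G)
    (h : ∀ P : G, ∃ x y z, (3 : ℕ) • P = f0 x + f1 y + f2 z)
    (h3 : {P : G | (3 : ℕ) • P = 0}.Finite) :
    Module.Finite ℤ G ∧ finrank ℤ G ≤ finrank ℤ G0 + finrank ℤ G1 + finrank ℤ G2 := by
  let R0 := LinearMap.range f0.toIntLinearMap
  let R1 := LinearMap.range f1.toIntLinearMap
  let R2 := LinearMap.range f2.toIntLinearMap
  let m : G →ₗ[ℤ] (R0 ⊔ R1 ⊔ R2 : Submodule ℤ G) :=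
    LinearMap.codRestrict _ (LinearMap.lsmul ℤ G 3) (by
    intro P
    obtain ⟨x, y, z, hx⟩ := h P
    have e : (LinearMap.lsmul ℤ G 3) P = f0 x + f1 y + f2 z := by
      rw [← hx]
      show (3 : ℤ) • P = (3 : ℕ) • P
      norm_cast
    rw [e]
    exact Submodule.add_mem_sup (Submodule.add_mem_sup ⟨x, rfl⟩ ⟨y, rfl⟩) ⟨z, rfl⟩)
  have hker : Module.rank ℤ (LinearMap.ker m) = 0 := by
    rw [rank_eq_zero_iff]
    rintro ⟨P, hP⟩
    refine ⟨3, by norm_num, ?_⟩
    apply Subtype.ext
    have h1 := congrArg Subtype.val (LinearMap.mem_ker.1 hP)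
    exact h1
  have hfg : Module.Finite ℤ G := by
    have e0 : R0.FG := by
      have : Module.Finite ℤ R0 := Module.Finite.range _
      exact Module.Finite.iff_fg.1 this
    have e1 : R1.FG := by
      have : Module.Finite ℤ R1 := Module.Finite.range _
      exact Module.Finite.iff_fg.1 this
    have e2 : R2.FG := by
      have : Module.Finite ℤ R2 := Module.Finite.range _
      exact Module.Finite.iff_fg.1 this
    have hR : Module.Finite ℤ (R0 ⊔ R1 ⊔ R2 : Submodule ℤ G) :=
      Module.Finite.iff_fg.2 ((e0.sup e1).sup e2)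
    have hN : IsNoetherian ℤ (R0 ⊔ R1 ⊔ R2 : Submodule ℤ G) := isNoetherian_of_isNoetherianRing_of_finite _ _
    have hk : Finite (LinearMap.ker m) := by
      refine Set.Finite.subset h3 (s := {P : G | (3 : ℕ) • P = 0}) (t := (LinearMap.ker m : Set G)) ?_
      intro P hP
      have h1 := congrArg Subtype.val (LinearMap.mem_ker.1 hP)
      have h2 : (3 : ℤ) • P = 0 := h1
      show (3 : ℕ) • P = 0
      rw [← h2]
      norm_cast
    constructor
    refine Submodule.fg_of_fg_map_of_fg_inf_ker m (IsNoetherian.noetherian _) ?_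
    rw [top_inf_eq]
    exact Module.Finite.iff_fg.1 (Module.Finite.of_finite)
  refine ⟨hfg, ?_⟩
  have h1 : Module.rank ℤ G ≤ Module.rank ℤ G0 + Module.rank ℤ G1 + Module.rank ℤ G2 := by
    rw [← LinearMap.rank_range_add_rank_ker m, hker, add_zero]
    refine (Submodule.rank_le _).trans ((Submodule.rank_add_le_rank_add_rank _ _).trans ?_)
    refine add_le_add ((Submodule.rank_add_le_rank_add_rank _ _).trans ?_) (rank_range_le _)
    exact add_le_add (rank_range_le _) (rank_range_le _)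
  have k0 := Module.rank_lt_aleph0 ℤ G0
  have k1 := Module.rank_lt_aleph0 ℤ G1
  have k2 := Module.rank_lt_aleph0 ℤ G2
  have h2 := Cardinal.toNat_le_toNat h1 (Cardinal.add_lt_aleph0 (Cardinal.add_lt_aleph0 k0 k1) k2)
  rwa [Cardinal.toNat_add (Cardinal.add_lt_aleph0 k0 k1) k2, Cardinal.toNat_add k0 k1] at h2

variable {K F : Type} [Field K] [Field F] [CharZero K] [CharZero F] [Algebra K F]

lemma Ed_delta {K : Type} [Field K] [CharZero K] {d : K} (hd : d ≠ 0) : (Ed d).Δ ≠ 0 := by
  have : (Ed d).Δ = -27 * d ^ 4 := by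
    simp only [Ed, WeierstrassCurve.Δ, WeierstrassCurve.b₂, WeierstrassCurve.b₄,
      WeierstrassCurve.b₆, WeierstrassCurve.b₈]
    ring
  rw [this]
  exact mul_ne_zero (by norm_num) (pow_ne_zero 4 hd)

/-- the homomorphism from the points of the twist -/
theorem exists_hom {d : K} (hd : d ≠ 0) {u : F} (hu : u ^ 3 * algebraMap K F d = 1)
    {V : WeierstrassCurve F} (hV : V = Ed (1 : F)) :
    ∃ f : (Ed d).toAffine.Point →+ V.toAffine.Point,
      ∀ X Y (hn : (Ed d).toAffine.Nonsingular X Y),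
        ∃ h', f (.some X Y hn) = .some (u ^ 2 * algebraMap K F X) (u ^ 3 * algebraMap K F Y) h' := by
  subst hV
  have e1 : Affine.baseChange (Ed d).toAffine K = Ed d := by
    ext <;> simp [Ed, Affine.baseChange]
  have e2 : Affine.baseChange (Ed d).toAffine F = Ed (algebraMap K F d) := by
    ext <;> simp [Ed, Affine.baseChange]
  have hu0 : u ≠ 0 := by
    rintro rfl
    simp at hu
  have hvr : Pool.Agent.Y700.VR (Ed (1 : F)) (Ed (algebraMap K F d)) u 0 0 0 := by
    refine ⟨hu0, ?_, ?_, ?_, ?_, ?_⟩ <;> simp [Ed]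
    exact hu
  have hda : algebraMap K F d ≠ 0 := (map_ne_zero _).2 hd
  have hex : ∃ m : (Affine.baseChange (Ed d).toAffine K).Point →+
      (Affine.baseChange (Ed d).toAffine F).Point,
      ∀ X Y (hn : (Affine.baseChange (Ed d).toAffine K).Nonsingular X Y),
        ∃ h', m (.some X Y hn) = .some (algebraMap K F X) (algebraMap K F Y) h' :=
    ⟨Affine.Point.map (W' := (Ed d).toAffine) (Algebra.ofId K F), fun X Y hn => ⟨_, rfl⟩⟩
  rw [e1, e2] at hex
  obtain ⟨m, hm⟩ := hex
  refine ⟨(hvr.equiv (Ed_delta hda)).toAddMonoidHom.comp m, fun X Y hn => ?_⟩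
  obtain ⟨h', e'⟩ := hm X Y hn
  have h3 : (hvr.equiv (Ed_delta hda)).toAddMonoidHom.comp m (.some X Y hn) =
      hvr.fn (Ed_delta hda) (m (.some X Y hn)) := rfl
  have h4 : (Ed (1 : F)).toAffine.Nonsingular (u ^ 2 * algebraMap K F X)
      (u ^ 3 * algebraMap K F Y) := by
    apply Ed_nons one_ne_zero
    have h5 : Y ^ 2 + d * Y = X ^ 3 := by
      have := (Affine.equation_iff _ _).1 hn.1
      simp only [Ed] at this
      linear_combination this
    have h6 := congrArg (algebraMap K F) h5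
    simp only [map_add, map_mul, map_pow] at h6
    linear_combination u ^ 6 * h6 - u ^ 3 * algebraMap K F Y * hu
  refine ⟨h4, ?_⟩
  rw [h3, e', Pool.Agent.Y700.VR.fn_some, Affine.Point.some.injEq]
  constructor <;> ring

/-- **the rank over the cubic extension** -/
theorem rank_points (h3 : finrank K F = 3) (I : K)
    (hI : I ^ 2 + I + 1 = 0) (a : K) (ha : a ≠ 0) (t : F) (ht : t ^ 3 = algebraMap K F a)
    (hnc : ∀ b : K, b ^ 3 ≠ a) (f0 : Module.Finite ℤ (Ed (1 : K)).toAffine.Point)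
    (f1 : Module.Finite ℤ (Ed a).toAffine.Point)
    (f2 : Module.Finite ℤ (Ed (a ^ 2)).toAffine.Point) :
    Module.Finite ℤ (Ed (1 : F)).toAffine.Point ∧
    finrank ℤ (Ed (1 : F)).toAffine.Point ≤ finrank ℤ (Ed (1 : K)).toAffine.Point +
      finrank ℤ (Ed a).toAffine.Point + finrank ℤ (Ed (a ^ 2)).toAffine.Point := by
  obtain ⟨hbas, hind, σ, hσ⟩ := kummer h3 I hI a t ht hnc
  obtain ⟨J, hJ⟩ : ∃ J : F, J = algebraMap K F I := ⟨_, rfl⟩
  have hJ2 : J ^ 2 + J + 1 = 0 := by
    rw [hJ, ← map_pow, ← map_one (algebraMap K F), ← map_add, ← map_add, hI, map_zero]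
  rw [← hJ] at hσ
  have hσJ : σ J = J := by rw [hJ]; exact σ.commutes I
  have hJ3 : J ^ 3 = 1 := by linear_combination (J - 1) * hJ2
  have hI3 : I ^ 3 = 1 := by linear_combination (I - 1) * hI
  have haF : algebraMap K F a ≠ 0 := (map_ne_zero _).2 ha
  have ht0 : t ≠ 0 := by
    intro h
    rw [h, zero_pow (by norm_num)] at ht
    exact haF ht.symm
  have hI1 : I - 1 ≠ 0 := by
    intro h
    have h3 : (3 : K) = 0 := by linear_combination hI - (I + 2) * h
    exact three_ne_zero h3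
  -- the curve as a base change
  set V : WeierstrassCurve F := Affine.baseChange (Ed (1 : K)).toAffine F with hV
  have hVE : V = Ed (1 : F) := by
    rw [hV]
    ext <;> simp [Ed, Affine.baseChange]
  have hisE : IsE V := by
    rw [hVE]
    exact ⟨rfl, rfl, rfl, rfl, rfl⟩
  obtain ⟨g0, hg0⟩ := exists_hom (K := K) (d := 1) one_ne_zero (u := 1) (by simp) hVE
  obtain ⟨g1, hg1⟩ := exists_hom (K := K) (d := a) ha (u := t⁻¹)
    (by rw [inv_pow, ht]; exact inv_mul_cancel₀ haF) hVE
  obtain ⟨g2, hg2⟩ := exists_hom (K := K) (d := a ^ 2) (pow_ne_zero 2 ha) (u := (t ^ 2)⁻¹)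
    (by
      rw [inv_pow, ← pow_mul, show 2 * 3 = 3 * 2 by norm_num, pow_mul, ht, map_pow]
      exact inv_mul_cancel₀ (pow_ne_zero 2 haF)) hVE
  rw [← hVE]
  let s : V.toAffine.Point →+ V.toAffine.Point := Affine.Point.map (W' := (Ed (1 : K)).toAffine) σ
  let A : V.toAffine.Point →+ V.toAffine.Point := im hisE hJ2
  have hs_some : ∀ x y (h : V.toAffine.Nonsingular x y), ∃ h' : V.toAffine.Nonsingular (σ x) (σ y),
      s (.some x y h) = .some (σ x) (σ y) h' := fun x y h => ⟨_, rfl⟩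
  have hA_some : ∀ x y (h : V.toAffine.Nonsingular x y), ∃ h' : V.toAffine.Nonsingular (J * x) y,
      A (.some x y h) = .some (J * x) y h' := fun x y h => ⟨_, rfl⟩
  have hσ3 : ∀ x, σ (σ (σ x)) = x := by
    have e1 : σ (σ (σ t)) = t := by
      rw [hσ, map_mul, hσJ, hσ, map_mul, map_mul, hσJ, hσ]
      linear_combination t * hJ3
    intro x
    obtain ⟨b0, b1, b2, rfl⟩ := hbas x
    simp only [map_add, map_mul, map_pow, AlgHom.commutes, e1]
  -- the eigenspaces
  have eig0 : ∀ x, σ x = x → ∃ b : K, x = algebraMap K F b := by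
    intro x hx
    obtain ⟨b0, b1, b2, rfl⟩ := hbas x
    simp only [map_add, map_mul, map_pow, AlgHom.commutes, hσ] at hx
    have h := hind 0 (b1 * (I - 1)) (b2 * (I ^ 2 - 1)) (by
      simp only [map_zero, map_mul, map_sub, map_pow, map_one, ← hJ]
      linear_combination hx)
    have e1 : b1 = 0 := (mul_eq_zero.1 h.2.1).resolve_right hI1
    have e2 : b2 = 0 := by
      refine (mul_eq_zero.1 h.2.2).resolve_right ?_
      intro h5
      apply hI1
      linear_combination hI3 - I * h5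
    refine ⟨b0, ?_⟩
    rw [e1, e2]
    simp
  have eig1 : ∀ x, σ x = J * x → ∃ b : K, x = algebraMap K F b * t := by
    intro x hx
    have h1 : σ (x * t ^ 2) = x * t ^ 2 := by
      rw [map_mul, map_pow, hx, hσ]
      linear_combination x * t ^ 2 * hJ3
    obtain ⟨b, hb⟩ := eig0 _ h1
    refine ⟨b / a, ?_⟩
    rw [map_div₀, ← hb, ← ht]
    field_simp
  have eig2 : ∀ x, σ x = J * (J * x) → ∃ b : K, x = algebraMap K F b * t ^ 2 := by
    intro x hx
    have h1 : σ (x * t) = x * t := by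
      rw [map_mul, hx, hσ]
      linear_combination x * t * hJ3
    obtain ⟨b, hb⟩ := eig0 _ h1
    refine ⟨b / a, ?_⟩
    rw [map_div₀, ← hb, ← ht]
    field_simp
  have heq : ∀ x y, V.toAffine.Nonsingular x y → y ^ 2 + y = x ^ 3 := fun x y h =>
    (hisE.eqn x y).1 h.1
  have hinjK : Function.Injective (algebraMap K F) := (algebraMap K F).injective
  have hA : ∀ P, A (A P) = -P - A P := im_im hisE hJ2
  have hs : ∀ P, s (s (s P)) = P := by
    rintro (_ | ⟨x, y, h⟩)
    · rfl
    · obtain ⟨h1, e1⟩ := hs_some x y h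
      obtain ⟨h2, e2⟩ := hs_some _ _ h1
      obtain ⟨h3, e3⟩ := hs_some _ _ h2
      rw [e1, e2, e3, Affine.Point.some.injEq]
      exact ⟨hσ3 x, hσ3 y⟩
  have hc : ∀ P, s (A P) = A (s P) := by
    rintro (_ | ⟨x, y, h⟩)
    · rfl
    · obtain ⟨h1, e1⟩ := hs_some x y h
      obtain ⟨h2, e2⟩ := hA_some x y h
      obtain ⟨h3, e3⟩ := hs_some _ _ h2
      obtain ⟨h4, e4⟩ := hA_some _ _ h1
      rw [e2, e3, e1, e4, Affine.Point.some.injEq]
      refine ⟨?_, rfl⟩
      rw [map_mul, hσJ]
  have r0 : ∀ P, s P = P → ∃ x, g0 x = P := by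
    rintro (_ | ⟨x, y, hn⟩) hP
    · exact ⟨0, map_zero g0⟩
    · obtain ⟨h1, e1⟩ := hs_some x y hn
      have hP' : s (.some x y hn) = .some x y hn := hP
      rw [e1, Affine.Point.some.injEq] at hP'
      obtain ⟨X, hX⟩ := eig0 x hP'.1
      obtain ⟨Y, hY⟩ := eig0 y hP'.2
      have h5 : Y ^ 2 + 1 * Y = X ^ 3 := by
        apply hinjK
        rw [map_add, map_pow, map_pow, map_mul, map_one, ← hX, ← hY, one_mul]
        exact heq x y hn
      obtain ⟨h6, h7⟩ := hg0 X Y (Ed_nons one_ne_zero h5)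
      refine ⟨_, h7.trans ?_⟩
      rw [Affine.Point.some.injEq]
      exact ⟨by rw [hX]; ring, by rw [hY]; ring⟩
  have r1 : ∀ P, s P = A P → ∃ x, g1 x = P := by
    rintro (_ | ⟨x, y, hn⟩) hP
    · exact ⟨0, map_zero g1⟩
    · obtain ⟨h1, e1⟩ := hs_some x y hn
      obtain ⟨h2, e2⟩ := hA_some x y hn
      have hP' : s (.some x y hn) = A (.some x y hn) := hP
      rw [e1, e2, Affine.Point.some.injEq] at hP'
      obtain ⟨X, hX⟩ := eig1 x hP'.1
      obtain ⟨Y, hY⟩ := eig0 y hP'.2
      have h5 : (Y * a) ^ 2 + a * (Y * a) = (X * a) ^ 3 := by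
        have h5 := heq x y hn
        apply hinjK
        simp only [map_add, map_pow, map_mul]
        rw [hX, hY] at h5
        linear_combination (algebraMap K F a) ^ 2 * h5 +
          (algebraMap K F X) ^ 3 * (algebraMap K F a) ^ 2 * ht
      obtain ⟨h6, h7⟩ := hg1 (X * a) (Y * a) (Ed_nons ha h5)
      refine ⟨_, h7.trans ?_⟩
      rw [Affine.Point.some.injEq]
      constructor
      · rw [hX, map_mul, ← ht]
        field_simp
      · rw [hY, map_mul, ← ht]
        field_simp
  have r2 : ∀ P, s P = A (A P) → ∃ x, g2 x = P := by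
    rintro (_ | ⟨x, y, hn⟩) hP
    · exact ⟨0, map_zero g2⟩
    · obtain ⟨h1, e1⟩ := hs_some x y hn
      obtain ⟨h2, e2⟩ := hA_some x y hn
      obtain ⟨h3, e3⟩ := hA_some _ _ h2
      have hP' : s (.some x y hn) = A (A (.some x y hn)) := hP
      rw [e1, e2, e3, Affine.Point.some.injEq] at hP'
      obtain ⟨X, hX⟩ := eig2 x hP'.1
      obtain ⟨Y, hY⟩ := eig0 y hP'.2
      have h5 : (Y * a ^ 2) ^ 2 + a ^ 2 * (Y * a ^ 2) = (X * a ^ 2) ^ 3 := by
        have h5 := heq x y hn
        apply hinjK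
        simp only [map_add, map_pow, map_mul]
        rw [hX, hY] at h5
        linear_combination (algebraMap K F a) ^ 4 * h5 +
          (algebraMap K F X) ^ 3 * (algebraMap K F a) ^ 4 * (t ^ 3 + algebraMap K F a) * ht
      obtain ⟨h6, h7⟩ := hg2 (X * a ^ 2) (Y * a ^ 2) (Ed_nons (pow_ne_zero 2 ha) h5)
      refine ⟨_, h7.trans ?_⟩
      rw [Affine.Point.some.injEq]
      constructor
      · rw [hX, map_mul, map_pow, ← ht]
        field_simp
      · rw [hY, map_mul, map_pow, ← ht]
        field_simp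
  have hk : {P | P - A P = 0}.Finite := by
    refine Set.Finite.subset (s := {0, T0 hisE, -T0 hisE}) (by simp) ?_
    intro P hP
    have := ker_im hisE hJ2 (P := P) hP
    simpa using this
  have h3k : {P : V.toAffine.Point | (3 : ℕ) • P = 0}.Finite := by
    let B : V.toAffine.Point →+ V.toAffine.Point := AddMonoidHom.id _ - A
    have hBB : ∀ P, B (B P) = -((3 : ℕ) • A P) := by
      intro P
      show (P - A P) - A (P - A P) = _
      rw [map_sub, hA]
      abel
    have hBk : {P | B P = 0}.Finite := hk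
    refine (fin_pre B hBk (fin_pre B hBk (Set.finite_singleton 0))).subset ?_
    intro P hP
    show B (B P) = 0
    rw [hBB, ← map_nsmul, show (3 : ℕ) • P = 0 from hP, map_zero, neg_zero]
  refine rank_group g0 g1 g2 (fun P => ?_) h3k
  obtain ⟨x, hx⟩ := r0 (P + s P + s (s P)) (by
    rw [map_add, map_add, hs]
    abel)
  obtain ⟨y, hy⟩ := r1 (P + A (A (s P)) + A (s (s P))) (by
    simp only [map_add, map_sub, map_neg, hc, hs, hA]
    abel)
  obtain ⟨z, hz⟩ := r2 (P + A (s P) + A (A (s (s P)))) (by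
    simp only [map_add, map_sub, map_neg, hc, hs, hA]
    abel)
  refine ⟨x, y, z, ?_⟩
  rw [hx, hy, hz, hA, hA]
  abel

end Pool.Agent.H462.T1
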