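import Pool.Agent.H462.T1.A
import Pool.Agent.H462.T1.B

/-!
# The cubic extensions `K(∛D)`: ranks and proportions
-/

set_option autoImplicit false
set_option linter.unusedSectionVars false

open scoped Classical

namespace Pool.Agent.H462.T1

open NumberField IsDedekindDomain WeierstrassCurve
open Pool.Agent.Y692.QS (Ei)
open Pool.Agent.Y703.CT (ClsE)
open Pool.Agent.Y696.CTK Pool.Agent.Y696.CTE
open Pool.Agent.XL6
open Pool.Agent.TH841.NF.D (Sha)

section
variable {K : Type} [Field K] [NumberField K] [IsCyclotomicExtension {3} ℚ K]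

/-- a root of unity of order three -/
lemma exists_I : ∃ I : K, I ^ 2 + I + 1 = 0 := by
  obtain ⟨⟨j, hj⟩, -⟩ := Pool.Agent.Y455.CTK.jex K
  refine ⟨((j Pool.Agent.Y692.QS.w : 𝓞 K) : K), ?_⟩
  have h1 : (j Pool.Agent.Y692.QS.w) ^ 2 + j Pool.Agent.Y692.QS.w + 1 = 0 := by
    rw [← map_pow, ← map_add, ← map_one j, ← map_add, Pool.Agent.Y710.CTE.w_rel, map_zero]
  have h2 := congrArg (fun x : 𝓞 K => (x : K)) h1
  simpa using h2

/-- an element of the class is not a unit -/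
lemma not_unit {D : 𝓞 K} (hD : ClsK D) : ¬ IsUnit D := by
  obtain ⟨⟨j, hj⟩, -⟩ := Pool.Agent.Y455.CTK.jex K
  intro hu
  apply hD.2.2
  have h4 : Algebra.norm ℤ D = 1 := by
    obtain ⟨z, rfl⟩ := j.surjective D
    rw [hj]
    exact Pool.Agent.Y692.QS.isUnit_iff.1 ((MulEquiv.isUnit_map j).1 hu)
  rw [h4, sub_self]
  exact dvd_zero _

/-- an element of the class is not a cube -/
lemma not_cube {D : 𝓞 K} (hD : ClsK D) (b : K) : b ^ 3 ≠ (D : K) := by
  intro hb
  have h1 : IsIntegral ℤ b := by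
    refine IsIntegral.of_pow (n := 3) (by norm_num) ?_
    rw [hb]
    exact RingOfIntegers.isIntegral_coe D
  obtain ⟨b', rfl⟩ : ∃ b' : 𝓞 K, (b' : K) = b := ⟨⟨b, h1⟩, rfl⟩
  have h3 : b' ^ 3 = D := by
    apply NumberField.RingOfIntegers.coe_injective
    rw [map_pow]
    exact hb
  have h4 : IsUnit b' := hD.2.1 b' ⟨b', by rw [← h3]; ring⟩
  exact not_unit hD (by rw [← h3]; exact h4.pow 3)

/-- **the rank over the cubic extension** -/
theorem rank_F {D : 𝓞 K} (hD : ClsK D) {r : ℕ} (hr : (SelK (D : K)).ncard = 3 ^ (r + 1))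
    {F : Type} [Field F] [NumberField F] [Algebra K F] {θ : F} (hd : Module.finrank K F = 3)
    (hθ : θ ^ 3 = algebraMap K F D) :
    Module.Finite ℤ (ED (1 : F)).toAffine.Point ∧
      Module.finrank ℤ (ED (1 : F)).toAffine.Point ≤ 4 * r := by
  obtain ⟨⟨f1, f2⟩, r1, r2⟩ := two_ranks hD hr
  obtain ⟨I, hI⟩ := exists_I (K := K)
  have hD0 : (D : K) ≠ 0 := by
    intro h
    have h1 : D = 0 := by exact_mod_cast h
    exact hD.2.1.ne_zero h1
  have e2 : ((D ^ 2 : 𝓞 K) : K) = (D : K) ^ 2 := map_pow _ _ _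
  rw [e2] at f2 r2
  have hfin : Finite (ED (1 : K)).toAffine.Point := fin_one
  have h0 : Module.finrank ℤ (ED (1 : K)).toAffine.Point = 0 := by
    rw [Module.finrank_eq_zero_iff_isTorsion]
    intro x
    refine ⟨⟨(addOrderOf x : ℤ), ?_⟩, ?_⟩
    · rw [mem_nonZeroDivisors_iff_ne_zero]
      exact_mod_cast (addOrderOf_pos x).ne'
    · show ((addOrderOf x : ℕ) : ℤ) • x = 0
      rw [natCast_zsmul, addOrderOf_nsmul_eq_zero]
  have hfin' : Finite (Pool.Agent.Y710.CTE.Ed (1 : K)).toAffine.Point := hfin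
  obtain ⟨h0', h1⟩ :=
    rank_points hd I hI (D : K) hD0 θ hθ (not_cube hD) (Module.Finite.of_finite) f1 f2
  refine ⟨h0', ?_⟩
  have h2 : Module.finrank ℤ (Pool.Agent.Y710.CTE.Ed (1 : K)).toAffine.Point = 0 := h0
  have h3 : Module.finrank ℤ (Pool.Agent.Y710.CTE.Ed (D : K)).toAffine.Point ≤ 2 * r := r1
  have h4 : Module.finrank ℤ (Pool.Agent.Y710.CTE.Ed ((D : K) ^ 2)).toAffine.Point ≤ 2 * r := r2
  have h5 : Module.finrank ℤ (ED (1 : F)).toAffine.Point ≤ 0 + 2 * r + 2 * r :=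
    h1.trans (by rw [h2]; omega)
  omega

/-- the L-function over the cubic extension, and the case of rank zero -/
theorem law_F {D : 𝓞 K} (hD : ClsK D) {F : Type} [Field F] [NumberField F] [Algebra K F] {θ : F}
    (hd : Module.finrank K F = 3) (hθ : θ ^ 3 = algebraMap K F D) : LawE F (Tri D) :=
  ((Pool.Agent.Y696.CTE.final K).2.1 D hD).2 F θ hd hθ

end

lemma ncard_union {α : Type} (S : ℕ → Set α) (hfin : ∀ s, (S s).Finite)
    (hd : ∀ s t, s ≠ t → Disjoint (S s) (S t)) (n : ℕ) :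
    (⋃ s ∈ Finset.range n, S s).ncard = ∑ s ∈ Finset.range n, (S s).ncard := by
  induction n with
  | zero => simp
  | succ m ihm =>
    rw [Finset.sum_range_succ, ← ihm, Finset.range_add_one, Finset.set_biUnion_insert,
      Set.union_comm, Set.ncard_union_eq ?_ ?_ (hfin m)]
    · rw [Set.disjoint_left]
      intro D hD1 hD2
      simp only [Set.mem_iUnion, Finset.mem_range, exists_prop] at hD1
      obtain ⟨s, hs, h1⟩ := hD1
      exact Set.disjoint_left.1 (hd s m (by omega)) h1 hD2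
    · exact Set.Finite.biUnion (Finset.finite_toSet _) fun s _ => hfin s

section
variable (K : Type) [Field K] [NumberField K] [IsCyclotomicExtension {3} ℚ K]

/-- the elements of the class -/
def up (X : ℕ) : Set (𝓞 K) := {D : 𝓞 K | Algebra.norm ℤ D ≤ X ∧ ClsK D}

lemma up_finite (X : ℕ) : (up K X).Finite := by
  obtain ⟨⟨j, hj⟩, -⟩ := Pool.Agent.Y455.CTK.jex K
  have hf : {D : Pool.Agent.Y692.QS.Ei | Pool.Agent.Y692.QS.nr D ≤ X}.Finite := by
    refine Set.Finite.subset (((Set.finite_Icc (-(2 * X : ℤ)) (2 * X)).prod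
      (Set.finite_Icc (-(2 * X : ℤ)) (2 * X))).image
        fun p : ℤ × ℤ => (⟨p.1, p.2⟩ : Pool.Agent.Y692.QS.Ei)) ?_
    intro D hD
    have hD' : D.re ^ 2 - D.re * D.im + D.im ^ 2 ≤ X := hD
    have hX : (0 : ℤ) ≤ X := Int.natCast_nonneg X
    have h1 : D.re ^ 2 ≤ 2 * X := by nlinarith [sq_nonneg (D.re - 2 * D.im)]
    have h2 : D.im ^ 2 ≤ 2 * X := by nlinarith [sq_nonneg (2 * D.re - D.im)]
    have h3 : |D.re| ≤ 2 * X :=
      ((Int.natCast_natAbs D.re).symm.le.trans (Int.natAbs_le_self_sq _)).trans h1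
    have h4 : |D.im| ≤ 2 * X :=
      ((Int.natCast_natAbs D.im).symm.le.trans (Int.natAbs_le_self_sq _)).trans h2
    exact ⟨(D.re, D.im), ⟨abs_le.1 h3, abs_le.1 h4⟩, rfl⟩
  refine (hf.image j).subset ?_
  rintro D ⟨h4, -⟩
  obtain ⟨z, rfl⟩ := j.surjective D
  exact ⟨z, by rw [hj] at h4; exact h4, rfl⟩

/-- the share of the small Selmer groups -/
theorem share (r : ℕ) : Filter.Tendsto (fun X : ℕ =>
    (({D ∈ up K X | ∃ s ≤ r, (SelK (D : K)).ncard = 3 ^ (s + 1)}.ncard : ℕ) : ℝ) /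
      ((up K X).ncard : ℝ)) Filter.atTop (nhds (∑ s ∈ Finset.range (r + 1), prob s)) := by
  obtain ⟨-, -, h3, -⟩ := finalXL K
  have h := tendsto_finsetSum (Finset.range (r + 1)) fun s _ => h3 s
  refine h.congr fun X => ?_
  rw [← Finset.sum_div]
  congr 1
  have hfin := up_finite K X
  have e : {D ∈ up K X | ∃ s ≤ r, (SelK (D : K)).ncard = 3 ^ (s + 1)} =
      ⋃ s ∈ Finset.range (r + 1), {D : 𝓞 K | Algebra.norm ℤ D ≤ X ∧ ClsK D ∧
        (SelK (D : K)).ncard = 3 ^ (s + 1)} := by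
    ext D
    simp only [Set.mem_iUnion, Finset.mem_range, exists_prop]
    constructor
    · rintro ⟨⟨h1, h2⟩, s, hs, h3⟩
      exact ⟨s, by omega, h1, h2, h3⟩
    · rintro ⟨s, hs, h1, h2, h3⟩
      exact ⟨⟨h1, h2⟩, s, by omega, h3⟩
  rw [e, ncard_union (fun s => {D : 𝓞 K | Algebra.norm ℤ D ≤ X ∧ ClsK D ∧
      (SelK (D : K)).ncard = 3 ^ (s + 1)}) (fun s => hfin.subset fun D hD => ⟨hD.1, hD.2.1⟩) ?_]
  · push_cast
    rfl
  · intro s t hst
    rw [Set.disjoint_left]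
    rintro D ⟨-, -, h1⟩ ⟨-, -, h2⟩
    rw [h1] at h2
    have := Nat.pow_right_injective (le_refl 2 |>.trans (by norm_num)) h2
    exact hst (by omega)

end

end Pool.Agent.H462.T1
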